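import Pool.Agent.H364R2.PiE
import Pool.Agent.H301R2.SSE.Nine3
import Pool.Agent.H340R2.LW

set_option autoImplicit false

namespace Pool.Agent.W48.PE

open Pool.Agent.H301R2.SSE Pool.Agent.H340R2.LW Finset

/-- if `y 0, y 1, y 2` are linearly independent over the algebraic numbers, then `y j`, `w * y j` do
not all lie in `Lt`, for `w` not algebraic -/
theorem grid (w : ℂ) (hw : ¬ IsAlgebraic ℚ w) (y : Fin 3 → ℂ)
    (hy : ∀ c : Fin 3 → ℂ, (∀ j, IsAlgebraic ℚ (c j)) → ∑ j, c j * y j = 0 → ∀ j, c j = 0)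
    (h : ∀ j, y j ∈ Lt ∧ w * y j ∈ Lt) : False := by
  refine strong_six ![1, w] y ?_ hy ?_
  · intro a b ha hb hab
    simp only [Matrix.cons_val_zero, Matrix.cons_val_one, mul_one] at hab
    by_cases hb0 : b = 0
    · subst hb0
      simpa using hab
    · exfalso
      apply hw
      have : w = -a * b⁻¹ := by
        field_simp
        linear_combination hab
      rw [this]
      exact ha.neg.mul hb.inv
  · intro i j
    fin_cases i
    · simpa using (h j).1
    · simpa using (h j).2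

/-- values of the exponential function at algebraic points: no three translates -/
theorem three (d : ℂ) (hd : IsAlgebraic ℚ d) (hd0 : d ≠ 0) (β : Fin 3 → ℂ)
    (hβ : ∀ j, IsAlgebraic ℚ (β j)) (hinj : Function.Injective β)
    (h : ∀ j, Complex.exp (β j) ∈ Lt ∧ Complex.exp (β j + d) ∈ Lt) : False := by
  refine grid (Complex.exp d) (transcendental_cexp d hd hd0) (fun j => Complex.exp (β j)) ?_ ?_
  · intro c hc hsum j
    exact lindemann_weierstrass (Finset.univ : Finset (Fin 3)) β c (fun i _ => hβ i)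
      (fun i _ => hc i) (fun i _ j _ hij => hinj hij) hsum j (Finset.mem_univ _)
  · intro j
    refine ⟨(h j).1, ?_⟩
    have := (h j).2
    rwa [Complex.exp_add, mul_comm] at this

theorem alg_int (d : ℤ) : IsAlgebraic ℚ (d : ℂ) := by
  have := isAlgebraic_algebraMap (R := ℚ) (A := ℂ) (d : ℚ)
  simpa using this

theorem alg_nat (d : ℕ) : IsAlgebraic ℚ (d : ℂ) := by
  have := isAlgebraic_algebraMap (R := ℚ) (A := ℂ) (d : ℚ)
  simpa using this

theorem card_bound (N : ℕ) (B : Finset ℕ) (hB : ∀ n ∈ B, 1 ≤ n ∧ n ≤ N)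
    (hL : ∀ n ∈ B, Complex.exp (n : ℂ) ∈ Lt) : (B.card : ℝ) ≤ 2 * Real.sqrt N + 1 := by
  classical
  -- fibres of the difference map
  have hfib : ∀ d : ℤ, d ≠ 0 →
      ((B.offDiag).filter (fun p => ((p.2 : ℤ) - p.1 = d))).card ≤ 2 := by
    intro d hd
    by_contra hcon
    push Not at hcon
    obtain ⟨p, q, r, hp, hq, hr, hpq, hpr, hqr⟩ := Finset.two_lt_card_iff.mp hcon
    simp only [Finset.mem_filter, Finset.mem_offDiag] at hp hq hr
    have h1 : ∀ s t : ℕ × ℕ, (s.2 : ℤ) - s.1 = d → (t.2 : ℤ) - t.1 = d → s ≠ t → s.1 ≠ t.1 := by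
      intro s t hs ht hst h
      apply hst
      apply Prod.ext h
      have : (s.2 : ℤ) = t.2 := by rw [h] at hs; omega
      exact_mod_cast this
    have h2 : ∀ s : ℕ × ℕ, (s.2 : ℤ) - s.1 = d → (s.1 : ℂ) + (d : ℂ) = (s.2 : ℂ) := by
      intro s hs
      rw [← hs]
      push_cast
      ring
    refine three (d : ℂ) (alg_int d) (by exact_mod_cast hd)
      ![(p.1 : ℂ), (q.1 : ℂ), (r.1 : ℂ)] ?_ ?_ ?_
    · intro j
      fin_cases j
      · exact alg_nat _
      · exact alg_nat _
      · exact alg_nat _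
    · have e1 := h1 p q hp.2 hq.2 hpq
      have e2 := h1 p r hp.2 hr.2 hpr
      have e3 := h1 q r hq.2 hr.2 hqr
      intro i j hij
      fin_cases i <;> fin_cases j <;> simp_all
    · intro j
      fin_cases j
      · exact ⟨hL _ hp.1.1, by
          change Complex.exp ((p.1 : ℂ) + d) ∈ Lt
          rw [h2 p hp.2]; exact hL _ hp.1.2.1⟩
      · exact ⟨hL _ hq.1.1, by
          change Complex.exp ((q.1 : ℂ) + d) ∈ Lt
          rw [h2 q hq.2]; exact hL _ hq.1.2.1⟩
      · exact ⟨hL _ hr.1.1, by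
          change Complex.exp ((r.1 : ℂ) + d) ∈ Lt
          rw [h2 r hr.2]; exact hL _ hr.1.2.1⟩
  by_cases hN : B = ∅
  · subst hN
    simp
    positivity
  have hN1 : 1 ≤ N := by
    obtain ⟨n, hn⟩ := Finset.nonempty_iff_ne_empty.mpr hN
    exact (hB n hn).1.trans (hB n hn).2
  have himg : (B.offDiag).image (fun p => ((p.2 : ℤ) - p.1)) ⊆
      (Finset.Icc (-((N : ℤ) - 1)) ((N : ℤ) - 1)).erase 0 := by
    intro d hd
    obtain ⟨p, hp, rfl⟩ := Finset.mem_image.mp hd
    rw [Finset.mem_offDiag] at hp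
    have h1 := hB _ hp.1
    have h2 := hB _ hp.2.1
    rw [Finset.mem_erase, Finset.mem_Icc]
    refine ⟨?_, ?_, ?_⟩
    · intro h
      apply hp.2.2
      omega
    · omega
    · omega
  have hcard := Finset.card_le_mul_card_image (f := fun p : ℕ × ℕ => ((p.2 : ℤ) - p.1))
    (B.offDiag) 2 (by
      intro d hd
      have h0 : d ≠ 0 := (Finset.mem_erase.mp (himg hd)).1
      exact hfib d h0)
  have hcard2 : ((B.offDiag).image (fun p => ((p.2 : ℤ) - p.1))).card ≤ 2 * (N - 1) := by
    refine (Finset.card_le_card himg).trans ?_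
    rw [Finset.card_erase_of_mem (by rw [Finset.mem_Icc]; omega), Int.card_Icc]
    omega
  rw [Finset.offDiag_card] at hcard
  have h3 : B.card * B.card - B.card ≤ 4 * (N - 1) := by
    calc _ ≤ _ := hcard
      _ ≤ 2 * (2 * (N - 1)) := Nat.mul_le_mul_left _ hcard2
      _ = 4 * (N - 1) := by ring
  have hk : 1 ≤ B.card := Finset.card_pos.mpr (Finset.nonempty_iff_ne_empty.mpr hN)
  obtain ⟨k, hk'⟩ : ∃ k, B.card = k + 1 := ⟨B.card - 1, by omega⟩
  obtain ⟨M, hM⟩ : ∃ M, N = M + 1 := ⟨N - 1, by omega⟩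
  rw [hk', hM] at h3
  have h4 : k * k ≤ 4 * (M + 1) := by
    have : (k + 1) * (k + 1) - (k + 1) = k * k + k := by
      rw [show (k + 1) * (k + 1) = (k * k + k) + (k + 1) by ring]
      exact Nat.add_sub_cancel _ _
    rw [this] at h3
    have : M + 1 - 1 = M := rfl
    omega
  have h5 : (k : ℝ) ≤ 2 * Real.sqrt N := by
    rw [show (2 : ℝ) * Real.sqrt N = Real.sqrt (4 * N) by
      rw [Real.sqrt_mul (by norm_num), show (4 : ℝ) = 2 ^ 2 by norm_num,
        Real.sqrt_sq (by norm_num)]]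
    apply Real.le_sqrt_of_sq_le
    rw [hM]
    have : ((k * k : ℕ) : ℝ) ≤ ((4 * (M + 1) : ℕ) : ℝ) := by exact_mod_cast h4
    push_cast at this ⊢
    nlinarith
  rw [hk']
  push_cast
  linarith

/-- If `λ₀ + e` is algebraic and non zero with `λ₀ ∈ LB` then `exp (β e + z)` is transcendental for
all algebraic `β ≠ 0` and all `z ∈ LB`. -/
theorem baker_part (l0 : ℂ) (hl0 : l0 ∈ LB) (h : IsAlgebraic ℚ (l0 + Complex.exp 1))
    (hne : l0 + Complex.exp 1 ≠ 0)
    (β : ℂ) (hβ : IsAlgebraic ℚ β) (hβ0 : β ≠ 0) (z : ℂ) (hz : z ∈ LB) :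
    ¬ IsAlgebraic ℚ (Complex.exp (β * Complex.exp 1 + z)) := by
  intro hexp
  have h1 : β * Complex.exp 1 + z ∈ LB := LB_log hexp
  have h2 : β * (l0 + Complex.exp 1) ∈ LB := by
    have e : β * (l0 + Complex.exp 1) = (β * Complex.exp 1 + z) + β * l0 - z := by ring
    rw [e]
    exact LB.sub_mem (LB.add_mem h1 (LB_mul hβ hl0)) hz
  have h3 := LB_alg h2 (hβ.mul h)
  exact (mul_ne_zero hβ0 hne) h3

theorem LB_pi : (Real.pi : ℂ) ∈ LB := by
  have h1 : (Real.pi * Complex.I : ℂ) ∈ LB := LB_log (by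
    rw [Complex.exp_pi_mul_I]; exact isAlgebraic_one.neg)
  have h2 := LB_mul (isAlgebraic_I.neg) h1
  have e : -Complex.I * (Real.pi * Complex.I : ℂ) = Real.pi := by
    have : Complex.I * Complex.I = -1 := Complex.I_mul_I
    linear_combination (-(Real.pi : ℂ)) * this
  rwa [e] at h2

end Pool.Agent.W48.PE

namespace Pool.Agent.W48.PE

open Pool.Agent.H301R2.SSE Pool.Agent.H340R2.LW Finset

/-- if `e ∈ Lt`, any three elements of the space of `y` with `y, e y ∈ Lt` are dependent -/
theorem structure_part (he : Complex.exp 1 ∈ Lt) :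
    ∃ y0 : ℂ, ∀ y ∈ Lt, Complex.exp 1 * y ∈ Lt →
      ∃ a b : ℂ, IsAlgebraic ℚ a ∧ IsAlgebraic ℚ b ∧ y = a + b * y0 := by
  by_cases hex : ∃ y1 ∈ Lt, Complex.exp 1 * y1 ∈ Lt ∧ ¬ IsAlgebraic ℚ y1
  · obtain ⟨y1, hy1, hy1', hna⟩ := hex
    refine ⟨y1, fun y hy hy' => ?_⟩
    by_contra hcon
    push Not at hcon
    refine grid (Complex.exp 1) transcendental_exp_one_complex ![1, y1, y] ?_ ?_
    · intro c hc hsum
      rw [Fin.sum_univ_three] at hsum
      simp only [Matrix.cons_val_zero, Matrix.cons_val_one, Matrix.cons_val] at hsum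
      by_cases h2 : c 2 = 0
      · rw [h2] at hsum
        by_cases h1 : c 1 = 0
        · rw [h1] at hsum
          intro j
          fin_cases j
          · simpa using hsum
          · exact h1
          · exact h2
        · exfalso
          apply hna
          have : y1 = -c 0 * (c 1)⁻¹ := by
            field_simp
            linear_combination hsum
          rw [this]
          exact (hc 0).neg.mul (hc 1).inv
      · exfalso
        refine hcon (-c 0 * (c 2)⁻¹) (-c 1 * (c 2)⁻¹) ((hc 0).neg.mul (hc 2).inv)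
          ((hc 1).neg.mul (hc 2).inv) ?_
        field_simp
        linear_combination hsum
    · intro j
      fin_cases j
      · exact ⟨Lt_one, by simpa using he⟩
      · exact ⟨hy1, hy1'⟩
      · exact ⟨hy, hy'⟩
  · push Not at hex
    exact ⟨0, fun y hy hy' => ⟨y, 0, hex y hy hy', isAlgebraic_zero, by ring⟩⟩

/-- two logarithms, linearly independent over `ℚ`, are linearly independent together with `1` -/
theorem log_pair {l1 l2 : ℂ} (h1 : IsAlgebraic ℚ (Complex.exp l1))
    (h2 : IsAlgebraic ℚ (Complex.exp l2)) (hli : LinearIndependent ℚ ![l1, l2])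
    {a b c : ℂ} (ha : IsAlgebraic ℚ a) (hb : IsAlgebraic ℚ b) (hc : IsAlgebraic ℚ c)
    (h : a + b * l1 + c * l2 = 0) : a = 0 ∧ b = 0 ∧ c = 0 := by
  obtain ⟨h3, h4⟩ := Pool.Agent.H297R2.baker_inhom (![l1, l2] : Fin 2 → ℂ)
    (by
      intro i
      fin_cases i
      · exact h1
      · exact h2) hli a ha ![b, c] (by
      intro i
      fin_cases i
      · exact hb
      · exact hc) (by
      rw [Fin.sum_univ_two]
      simp only [Matrix.cons_val_zero, Matrix.cons_val_one]
      rw [← h]; ring)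
  exact ⟨h3, h4 0, h4 1⟩

theorem log_part (he : Complex.exp 1 ∈ Lt) :
    ∃ l0 : ℂ, ∀ l : ℂ, IsAlgebraic ℚ (Complex.exp l) → Complex.exp 1 * l ∈ Lt →
      ∃ q : ℚ, l = q * l0 := by
  by_cases hex : ∃ l1 : ℂ, l1 ≠ 0 ∧ IsAlgebraic ℚ (Complex.exp l1) ∧ Complex.exp 1 * l1 ∈ Lt
  · obtain ⟨l1, hl0, hl1, hl1'⟩ := hex
    refine ⟨l1, fun l hl hl' => ?_⟩
    by_contra hcon
    push Not at hcon
    have hli : LinearIndependent ℚ ![l1, l] := by
      rw [LinearIndependent.pair_iff]
      intro s t hst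
      simp only [Rat.smul_def] at hst
      by_cases ht : t = 0
      · subst ht
        simp only [Rat.cast_zero, zero_mul, add_zero, mul_eq_zero] at hst
        rcases hst with h | h
        · exact ⟨by exact_mod_cast h, rfl⟩
        · exact absurd h hl0
      · exfalso
        apply hcon (-s / t)
        have : (t : ℂ) ≠ 0 := by exact_mod_cast ht
        push_cast
        field_simp
        linear_combination hst
    refine grid (Complex.exp 1) transcendental_exp_one_complex ![1, l1, l] ?_ ?_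
    · intro c hc hsum
      rw [Fin.sum_univ_three] at hsum
      simp only [Matrix.cons_val_zero, Matrix.cons_val_one, Matrix.cons_val] at hsum
      obtain ⟨e1, e2, e3⟩ := log_pair hl1 hl hli (hc 0) (hc 1) (hc 2) (by rw [← hsum]; ring)
      intro j
      fin_cases j
      · exact e1
      · exact e2
      · exact e3
    · intro j
      fin_cases j
      · exact ⟨Lt_one, by simpa using he⟩
      · exact ⟨Lt_log hl1, hl1'⟩
      · exact ⟨Lt_log hl, hl'⟩
  · push Not at hex
    refine ⟨0, fun l hl hl' => ⟨0, ?_⟩⟩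
    by_contra h0
    have h1 : l ≠ 0 := by simpa using h0
    exact hex l h1 hl hl'

theorem exp_part (he : Complex.exp 1 ∈ Lt) (β1 β2 : ℂ) (h1 : IsAlgebraic ℚ β1)
    (h2 : IsAlgebraic ℚ β2) (h10 : β1 ≠ 0) (h20 : β2 ≠ 0)
    (h11 : Complex.exp β1 ∈ Lt) (h12 : Complex.exp (β1 + 1) ∈ Lt)
    (h21 : Complex.exp β2 ∈ Lt) (h22 : Complex.exp (β2 + 1) ∈ Lt) : β1 = β2 := by
  by_contra hne
  refine three 1 isAlgebraic_one one_ne_zero ![0, β1, β2] ?_ ?_ ?_
  · intro j
    fin_cases j
    · exact isAlgebraic_zero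
    · exact h1
    · exact h2
  · intro i j hij
    fin_cases i <;> fin_cases j <;> simp_all
  · intro j
    fin_cases j
    · exact ⟨by simpa using Lt_one, by simpa using he⟩
    · exact ⟨h11, h12⟩
    · exact ⟨h21, h22⟩

end Pool.Agent.W48.PE
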